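import Pool.Agent.Helper16.CZ.Stmts
import Pool.Agent.Helper83.AZ.TLR

/-!
The frequencies of `Fn` in the coordinates of level `ℓ` (module TFM).
-/

open Finset Filter MeasureTheory Topology
open scoped ComplexConjugate InnerProductSpace

namespace Pool.Agent.Helper16.CZ

open Pool.Agent.Helper16.AZ (T E Op mm ST_VDH ST_FPV ST_TLR fc tlr_shift)
open Pool.Agent.Helper16.BZ (EQ GR PD)
open Pool.Agent.Helper16.MD (MS PB Am RW Rich)
open UnitAddTorus (mFourier)

theorem tfm_circ {r : ℕ} (X : Fin r → ℤ) (y : T r) :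
    mFourier X y = ((AddCircle.toCircle (∑ i, X i • y i) : Circle) : ℂ) := by
  show ∏ i, fourier (X i) (y i) = _
  have h2 : ∀ s : Finset (Fin r), ∏ i ∈ s, fourier (X i) (y i) =
      ((AddCircle.toCircle (∑ i ∈ s, X i • y i) : Circle) : ℂ) := by
    intro s
    induction s using Finset.induction_on with
    | empty => simp
    | insert a s ha ih =>
      rw [Finset.prod_insert ha, Finset.sum_insert ha, ih, AddCircle.toCircle_add,
        Circle.coe_mul, fourier_apply]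
  exact h2 _

theorem tfm_zs (m : ℤ) (x : ℝ) : (((m : ℝ) * x : ℝ) : UnitAddCircle) = m • (x : UnitAddCircle) := by
  rw [← zsmul_eq_mul, AddCircle.coe_zsmul]

/-- the exponential -/
noncomputable def tfm_e (u : ℝ) : ℂ := ((AddCircle.toCircle (u : UnitAddCircle) : Circle) : ℂ)

theorem tfm_e_exp (u : ℝ) : tfm_e u = Complex.exp ((2 * Real.pi * u : ℝ) * Complex.I) := by
  unfold tfm_e
  rw [AddCircle.toCircle_apply_mk, Circle.coe_exp]
  congr 2
  push_cast
  ring

theorem tfm_e_add (u v : ℝ) : tfm_e (u + v) = tfm_e u * tfm_e v := by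
  unfold tfm_e
  rw [← Circle.coe_mul, ← AddCircle.toCircle_add]
  rfl

theorem tfm_e_norm (u : ℝ) : ‖tfm_e u‖ = 1 := Circle.norm_coe _

theorem tfm_e_neg (u : ℝ) : tfm_e u * tfm_e (-u) = 1 := by
  rw [← tfm_e_add, add_neg_cancel, tfm_e_exp]
  simp

theorem tfm_e_sub (u : ℝ) : ‖tfm_e u - 1‖ ≤ 2 * Real.pi * |u| := by
  rw [tfm_e_exp, mul_comm]
  refine (Real.norm_exp_I_mul_ofReal_sub_one_le (x := 2 * Real.pi * u)).trans ?_
  rw [Real.norm_eq_abs, abs_mul, abs_of_pos Real.two_pi_pos]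

theorem tfm_e_sq (u : ℝ) : ‖tfm_e u - 1‖ ^ 2 = 2 - 2 * Real.cos (2 * Real.pi * u) := by
  rw [tfm_e_exp]
  set φ : ℝ := 2 * Real.pi * u
  rw [← Complex.normSq_eq_norm_sq, Complex.normSq_apply]
  have e1 : (Complex.exp ((φ : ℂ) * Complex.I) - 1).re = Real.cos φ - 1 := by
    rw [Complex.sub_re, Complex.exp_ofReal_mul_I_re, Complex.one_re]
  have e2 : (Complex.exp ((φ : ℂ) * Complex.I) - 1).im = Real.sin φ := by
    rw [Complex.sub_im, Complex.exp_ofReal_mul_I_im, Complex.one_im, sub_zero]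
  rw [e1, e2]
  nlinarith [Real.sin_sq_add_cos_sq φ]

theorem tfm_single {r : ℕ} (Y : Fin r → ℤ) (j : Fin r) (t : ℝ) :
    mFourier Y (sg j t) = tfm_e (Y j * t) := by
  rw [tfm_circ]
  unfold tfm_e sg
  congr 2
  rw [Finset.sum_eq_single j]
  · rw [Pi.single_eq_same, tfm_zs]
  · intro i _ hi
    rw [Pi.single_eq_of_ne hi, smul_zero]
  · simp

/-- the sum of the differences -/
noncomputable def tfm_R {r : ℕ} (S : T r → T r) (Ψ : T r → ℝ) (s : T r) (n : ℕ) (w : T r) : ℝ :=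
  ∑ k ∈ range n, (Ψ (S^[k] w + s) - Ψ (S^[k] w))

section

variable {r : ℕ} {lev : Fin r → ℕ} {D : Matrix (Fin r) (Fin r) ℤ}
  {ψ : Fin r → T r → ℝ} {S : T r → T r}

theorem tfm_orbit (h : Tw lev D ψ S) {ℓ : ℕ} {j : Fin r} (hj : lev j = ℓ) (t : ℝ) (w : T r)
    (k : ℕ) : ∀ i, lev i ≤ ℓ → (S^[k] (w + sg j t)) i = (S^[k] w) i + sg j t i := by
  induction k with
  | zero => intro i _; rfl
  | succ k ih =>
    intro i hi
    rw [Function.iterate_succ_apply', Function.iterate_succ_apply']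
    obtain ⟨-, -, hlow, hD, hS, -, -⟩ := h
    have h0 : ∀ j', lev j' < lev i → (S^[k] (w + sg j t)) j' = (S^[k] w) j' := by
      intro j' hj'
      rw [ih j' (by omega)]
      have : j' ≠ j := by rintro rfl; omega
      unfold sg
      rw [Pi.single_eq_of_ne this, add_zero]
    rw [hS, hS, hlow i _ _ h0, ih i hi]
    have h1 : ∑ j', D i j' • (S^[k] (w + sg j t)) j' = ∑ j', D i j' • (S^[k] w) j' := by
      refine Finset.sum_congr rfl fun j' _ => ?_
      by_cases hz : D i j' = 0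
      · rw [hz, zero_smul, zero_smul]
      · rw [h0 j' (hD i j' hz)]
    rw [h1]
    abel

theorem tfm_step (h : Tw lev D ψ S) {ℓ : ℕ} {j : Fin r} (t : ℝ)
    (X : Fin r → ℤ) (hX : ∀ i, X i ≠ 0 → lev i ≤ ℓ + 1) (x x' : T r)
    (hx : ∀ i, lev i ≤ ℓ → x' i = x i + sg j t i) :
    ∑ i, X i • (S x' i - x' i) = ∑ i, X i • (S x i - x i) +
      (((Matrix.vecMul X D j : ℤ) * t + ((∑ i, (X i : ℝ) * ψ i (x + sg j t)) -
        ∑ i, (X i : ℝ) * ψ i x) : ℝ) : UnitAddCircle) := by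
  obtain ⟨-, -, hlow, hD, hS, -, -⟩ := h
  have e1 : ((Matrix.vecMul X D j : ℤ) * t + ((∑ i, (X i : ℝ) * ψ i (x + sg j t)) -
        ∑ i, (X i : ℝ) * ψ i x) : ℝ) =
      ∑ i, ((X i : ℝ) * ((D i j : ℝ) * t + (ψ i (x + sg j t) - ψ i x))) := by
    have : Matrix.vecMul X D j = ∑ i, X i * D i j := rfl
    rw [this]
    push_cast
    rw [Finset.sum_mul, ← Finset.sum_sub_distrib, ← Finset.sum_add_distrib]
    refine Finset.sum_congr rfl fun i _ => ?_
    ring
  have e2 : ((∑ i, ((X i : ℝ) * ((D i j : ℝ) * t + (ψ i (x + sg j t) - ψ i x))) : ℝ) :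
      UnitAddCircle) = ∑ i, X i • ((((D i j : ℝ) * t + (ψ i (x + sg j t) - ψ i x) : ℝ)) :
        UnitAddCircle) := by
    have h3 : ∀ s : Finset (Fin r),
        ((∑ i ∈ s, ((X i : ℝ) * ((D i j : ℝ) * t + (ψ i (x + sg j t) - ψ i x))) : ℝ) :
      UnitAddCircle) = ∑ i ∈ s, X i • ((((D i j : ℝ) * t + (ψ i (x + sg j t) - ψ i x) : ℝ)) :
        UnitAddCircle) := by
      intro s
      induction s using Finset.induction_on with
      | empty => simp
      | insert a s ha ih =>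
        rw [Finset.sum_insert ha, Finset.sum_insert ha, ← ih, AddCircle.coe_add,
          tfm_zs]
    exact h3 _
  rw [e1, e2, ← Finset.sum_add_distrib]
  refine Finset.sum_congr rfl fun i _ => ?_
  by_cases hz : X i = 0
  · rw [hz, zero_smul, zero_smul, zero_smul, add_zero]
  · have hi := hX i hz
    rw [← smul_add]
    congr 1
    have h0 : ψ i x' = ψ i (x + sg j t) := by
      refine hlow i _ _ fun j' hj' => ?_
      rw [hx j' (by omega)]
      rfl
    rw [hS, hS, h0]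
    have h1 : ∑ j', D i j' • x' j' = ∑ j', D i j' • x j' + D i j • (t : UnitAddCircle) := by
      have h2 : ∑ j', D i j' • sg j t j' = D i j • (t : UnitAddCircle) := by
        unfold sg
        rw [Finset.sum_eq_single j]
        · rw [Pi.single_eq_same]
        · intro i' _ hi'
          rw [Pi.single_eq_of_ne hi', smul_zero]
        · simp
      rw [← h2, ← Finset.sum_add_distrib]
      refine Finset.sum_congr rfl fun j' _ => ?_
      by_cases hz' : D i j' = 0
      · rw [hz', zero_smul, zero_smul, zero_smul, add_zero]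
      · rw [hx j' (by have := hD i j' hz'; omega), smul_add]
    rw [h1, AddCircle.coe_add, tfm_zs, AddCircle.coe_sub]
    abel

theorem tfm_sum (h : Tw lev D ψ S) {ℓ : ℕ} {j : Fin r} (hj : lev j = ℓ) (t : ℝ)
    (X : Fin r → ℤ) (hX : ∀ i, X i ≠ 0 → lev i ≤ ℓ + 1) (w : T r) (n : ℕ) :
    ∑ i, X i • (S^[n] (w + sg j t) i) - ∑ i, X i • (w + sg j t) i =
      ∑ i, X i • (S^[n] w i) - ∑ i, X i • w i +
      (((n : ℝ) * (Matrix.vecMul X D j : ℤ) * t +
        tfm_R S (fun x => ∑ i, (X i : ℝ) * ψ i x) (sg j t) n w : ℝ) : UnitAddCircle) := by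
  induction n with
  | zero => simp [tfm_R]
  | succ n ih =>
    have h1 := tfm_step h t X hX (S^[n] w) (S^[n] (w + sg j t)) (tfm_orbit h hj t w n)
    have h2 : ∀ x : T r, ∑ i, X i • (S x i) = ∑ i, X i • (S x i - x i) + ∑ i, X i • x i := by
      intro x
      rw [← Finset.sum_add_distrib]
      refine Finset.sum_congr rfl fun i _ => ?_
      rw [← smul_add, sub_add_cancel]
    rw [Function.iterate_succ_apply', Function.iterate_succ_apply', h2, h1, h2 (S^[n] w)]
    have h3 : ∑ i, X i • (S^[n] (w + sg j t) i) = ∑ i, X i • (w + sg j t) i +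
      (∑ i, X i • (S^[n] w i) - ∑ i, X i • w i +
      (((n : ℝ) * (Matrix.vecMul X D j : ℤ) * t +
        tfm_R S (fun x => ∑ i, (X i : ℝ) * ψ i x) (sg j t) n w : ℝ) : UnitAddCircle)) := by
      rw [← ih]; abel
    rw [h3]
    have h4 : (((n + 1 : ℕ) : ℝ) * (Matrix.vecMul X D j : ℤ) * t +
        tfm_R S (fun x => ∑ i, (X i : ℝ) * ψ i x) (sg j t) (n + 1) w : ℝ) =
      ((n : ℝ) * (Matrix.vecMul X D j : ℤ) * t +
        tfm_R S (fun x => ∑ i, (X i : ℝ) * ψ i x) (sg j t) n w) +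
      ((Matrix.vecMul X D j : ℤ) * t + ((∑ i, (X i : ℝ) * ψ i (S^[n] w + sg j t)) -
        ∑ i, (X i : ℝ) * ψ i (S^[n] w))) := by
      unfold tfm_R
      rw [Finset.sum_range_succ]
      push_cast
      ring
    rw [h4]
    generalize (n : ℝ) * (Matrix.vecMul X D j : ℤ) * t +
        tfm_R S (fun x => ∑ i, (X i : ℝ) * ψ i x) (sg j t) n w = a₁
    generalize (Matrix.vecMul X D j : ℤ) * t + ((∑ i, (X i : ℝ) * ψ i (S^[n] w + sg j t)) -
        ∑ i, (X i : ℝ) * ψ i (S^[n] w)) = a₂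
    rw [AddCircle.coe_add]
    abel

theorem tfm_Fn (h : Tw lev D ψ S) {ℓ : ℕ} {j : Fin r} (hj : lev j = ℓ) (t : ℝ)
    (X : Fin r → ℤ) (hX : ∀ i, X i ≠ 0 → lev i ≤ ℓ + 1) (w : T r) (n : ℕ) :
    Fn S X n (w + sg j t) = Fn S X n w * tfm_e ((n : ℝ) * (Matrix.vecMul X D j : ℤ) * t +
        tfm_R S (fun x => ∑ i, (X i : ℝ) * ψ i x) (sg j t) n w) := by
  have h1 : ∀ v : T r, Fn S X n v = ((AddCircle.toCircle
      (∑ i, X i • (S^[n] v i) - ∑ i, X i • v i) : Circle) : ℂ) := by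
    intro v
    unfold Fn
    rw [tfm_circ, tfm_circ, ← Circle.coe_inv_eq_conj, ← Circle.coe_mul, sub_eq_add_neg,
      AddCircle.toCircle_add, AddCircle.toCircle_neg]
  rw [h1, h1, tfm_sum h hj t X hX w n, AddCircle.toCircle_add, Circle.coe_mul]
  rfl

theorem tfm_cont (h : Tw lev D ψ S) : Continuous S ∧ ∀ i, Continuous (ψ i) := by
  obtain ⟨⟨L, hL0, hL⟩, -, -, -, hS, -, -⟩ := h
  have h1 : ∀ i, Continuous (ψ i) := by
    intro i
    refine (LipschitzWith.of_dist_le_mul (K := ⟨L, hL0⟩) fun x y => ?_).continuous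
    rw [Real.dist_eq]
    exact hL i x y
  refine ⟨?_, h1⟩
  refine continuous_pi fun i => ?_
  have h2 : (fun x => S x i) = fun x => x i + (∑ j, D i j • x j) + (ψ i x : UnitAddCircle) := by
    funext x; exact hS x i
  rw [h2]
  have h3 : Continuous fun x : T r => ((ψ i x : ℝ) : UnitAddCircle) :=
    (AddCircle.continuous_mk' 1).comp (h1 i)
  exact ((continuous_apply i).add (continuous_finsetSum _ fun j _ =>
    (continuous_apply j).zsmul _)).add h3

theorem tfm_der (h : Tw lev D ψ S) (X : Fin r → ℤ) (j : Fin r) :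
    ∃ g : T r → ℝ, Continuous g ∧ ∀ ε : ℝ, 0 < ε → ∃ δ : ℝ, 0 < δ ∧ ∀ (x : T r) (t : ℝ),
      |t| ≤ δ → |(∑ i, (X i : ℝ) * ψ i (x + sg j t)) - (∑ i, (X i : ℝ) * ψ i x) - t * g x| ≤
        ε * |t| := by
  obtain ⟨-, hder, -⟩ := h
  have key : ∀ s : Finset (Fin r),
    ∃ g : T r → ℝ, Continuous g ∧ ∀ ε : ℝ, 0 < ε → ∃ δ : ℝ, 0 < δ ∧ ∀ (x : T r) (t : ℝ),
      |t| ≤ δ → |(∑ i ∈ s, (X i : ℝ) * ψ i (x + sg j t)) - (∑ i ∈ s, (X i : ℝ) * ψ i x) -
        t * g x| ≤ ε * |t| := by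
    intro s
    induction s using Finset.induction_on with
    | empty =>
      refine ⟨fun _ => 0, continuous_const, fun ε hε => ⟨1, one_pos, fun x t _ => ?_⟩⟩
      simp only [sum_empty, mul_zero, sub_zero, abs_zero]
      positivity
    | insert a s ha ih =>
      obtain ⟨g, hg, hg2⟩ := ih
      obtain ⟨g', hg', hg2'⟩ := hder a j
      refine ⟨fun x => X a * g' x + g x, by fun_prop, fun ε hε => ?_⟩
      obtain ⟨δ₁, hδ₁, h1⟩ := hg2 (ε / 2) (by positivity)
      obtain ⟨δ₂, hδ₂, h2⟩ := hg2' (ε / (2 * (|(X a : ℝ)| + 1))) (by positivity)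
      refine ⟨min δ₁ δ₂, lt_min hδ₁ hδ₂, fun x t ht => ?_⟩
      have h3 := h1 x t (ht.trans (min_le_left _ _))
      have h4 := h2 x t (ht.trans (min_le_right _ _))
      rw [Finset.sum_insert ha, Finset.sum_insert ha]
      have e : (X a : ℝ) * ψ a (x + sg j t) + (∑ i ∈ s, (X i : ℝ) * ψ i (x + sg j t)) -
          ((X a : ℝ) * ψ a x + ∑ i ∈ s, (X i : ℝ) * ψ i x) - t * ((X a : ℝ) * g' x + g x) =
          (X a : ℝ) * (ψ a (x + sg j t) - ψ a x - t * g' x) +
          ((∑ i ∈ s, (X i : ℝ) * ψ i (x + sg j t)) - (∑ i ∈ s, (X i : ℝ) * ψ i x) -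
            t * g x) := by ring
      rw [e]
      refine (abs_add_le _ _).trans ?_
      rw [abs_mul]
      have h5 : |(X a : ℝ)| * |ψ a (x + sg j t) - ψ a x - t * g' x| ≤ ε / 2 * |t| := by
        calc |(X a : ℝ)| * |ψ a (x + sg j t) - ψ a x - t * g' x|
            ≤ (|(X a : ℝ)| + 1) * (ε / (2 * (|(X a : ℝ)| + 1)) * |t|) := by
              refine mul_le_mul (by linarith) h4 (abs_nonneg _) (by positivity)
          _ = ε / 2 * |t| := by field_simp
      linarith
  exact key univ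

theorem tfm_int0 {g Ψ : T r → ℝ} (hΨ : Continuous Ψ) (hg : Continuous g) (j : Fin r)
    (hd : ∀ ε : ℝ, 0 < ε → ∃ δ : ℝ, 0 < δ ∧ ∀ (x : T r) (t : ℝ),
      |t| ≤ δ → |Ψ (x + sg j t) - Ψ x - t * g x| ≤ ε * |t|) : ∫ x, g x ∂(mm r) = 0 := by
  have hint : ∀ f : T r → ℝ, Continuous f → Integrable f (mm r) := fun f hf =>
    hf.integrable_of_hasCompactSupport (HasCompactSupport.of_compactSpace _)
  by_contra hne
  have hpos : 0 < |∫ x, g x ∂(mm r)| := abs_pos.2 hne
  obtain ⟨δ, hδ, h1⟩ := hd (|∫ x, g x ∂(mm r)| / 2) (by positivity)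
  have h2 : ∫ x, (Ψ (x + sg j δ) - Ψ x) ∂(mm r) = 0 := by
    rw [integral_sub (hint _ (by fun_prop)) (hint _ hΨ), integral_add_right_eq_self, sub_self]
  have h3 : ∫ x, (Ψ (x + sg j δ) - Ψ x - δ * g x) ∂(mm r) = -(δ * ∫ x, g x ∂(mm r)) := by
    rw [integral_sub (hint _ (by fun_prop)) (hint _ (by fun_prop)), h2, integral_const_mul,
      zero_sub]
  have h4 : ‖∫ x, (Ψ (x + sg j δ) - Ψ x - δ * g x) ∂(mm r)‖ ≤
      (|∫ x, g x ∂(mm r)| / 2 * |δ|) * ((mm r).real Set.univ) :=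
    norm_integral_le_of_norm_le_const (Eventually.of_forall fun x => h1 x δ
      (by rw [abs_of_pos hδ]))
  rw [h3, norm_neg, Real.norm_eq_abs, abs_mul, abs_of_pos hδ, probReal_univ, mul_one] at h4
  nlinarith

end

theorem tfm_range (f : ℕ → ℝ) (n : ℕ) :
    ∑ k ∈ range n, f k = f 0 + ∑ y ∈ Icc 1 n, f y - f n := by
  induction n with
  | zero => simp
  | succ n ih =>
    rw [Finset.sum_range_succ, ih, Finset.sum_Icc_succ_top (by omega)]
    ring

theorem tfm_avg {r : ℕ} {S : T r → T r} (hS : Continuous S) {g : T r → ℝ} (hg : Continuous g)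
    (h : ∀ x : T r, Tendsto (fun M : ℕ => (∑ y ∈ Icc 1 M, ((g (S^[y] x) : ℝ) : ℂ)) / (M : ℂ))
      atTop (𝓝 0)) :
    Tendsto (fun n : ℕ => ∫ w, ((∑ k ∈ range n, g (S^[k] w)) / n) ^ 2 ∂(mm r)) atTop (𝓝 0) := by
  obtain ⟨C, hC⟩ : ∃ C : ℝ, ∀ x, |g x| ≤ C := by
    obtain ⟨C, hC⟩ := isCompact_univ.exists_bound_of_continuousOn (f := g) hg.continuousOn
    exact ⟨C, fun x => hC x (Set.mem_univ x)⟩
  have hC0 : 0 ≤ C := (abs_nonneg _).trans (hC 0)
  have hS' : ∀ k, Continuous (S^[k]) := fun k => hS.iterate k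
  have hpt : ∀ x : T r, Tendsto (fun n : ℕ => (∑ k ∈ range n, g (S^[k] x)) / (n : ℝ)) atTop
      (𝓝 0) := by
    intro x
    have h1 : Tendsto (fun M : ℕ => (∑ y ∈ Icc 1 M, g (S^[y] x)) / (M : ℝ)) atTop (𝓝 0) := by
      have h2 := (Complex.continuous_re.tendsto _).comp (h x)
      rw [Complex.zero_re] at h2
      refine h2.congr fun M => ?_
      simp only [Function.comp]
      have : (∑ y ∈ Icc 1 M, ((g (S^[y] x) : ℝ) : ℂ)) / (M : ℂ) =
          (((∑ y ∈ Icc 1 M, g (S^[y] x)) / (M : ℝ) : ℝ) : ℂ) := by push_cast; rfl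
      rw [this, Complex.ofReal_re]
    have h3 : Tendsto (fun n : ℕ => (g x - g (S^[n] x)) / (n : ℝ)) atTop (𝓝 0) := by
      refine squeeze_zero_norm (a := fun n : ℕ => (2 * C) / (n : ℝ)) (fun n => ?_)
        (tendsto_const_div_atTop_nhds_zero_nat _)
      rw [norm_div, Real.norm_natCast]
      refine div_le_div_of_nonneg_right ?_ (by positivity)
      refine (norm_sub_le _ _).trans ?_
      have := hC x
      have := hC (S^[n] x)
      rw [Real.norm_eq_abs, Real.norm_eq_abs]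
      linarith
    have h4 := h1.add h3
    rw [add_zero] at h4
    refine h4.congr fun n => ?_
    rw [tfm_range (fun k => g (S^[k] x)) n, ← add_div]
    congr 1
    simp only [Function.iterate_zero, id]
    ring
  have h5 := tendsto_integral_of_dominated_convergence (μ := mm r)
    (F := fun (n : ℕ) (w : T r) => ((∑ k ∈ range n, g (S^[k] w)) / (n : ℝ)) ^ 2)
    (f := fun _ => (0 : ℝ)) (fun _ => C ^ 2)
    (fun n => by
      have : Continuous fun w : T r => ((∑ k ∈ range n, g (S^[k] w)) / (n : ℝ)) ^ 2 := by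
        have h6 : Continuous fun w : T r => ∑ k ∈ range n, g (S^[k] w) :=
          continuous_finsetSum _ fun k _ => hg.comp (hS' k)
        exact (h6.div_const _).pow 2
      exact this.aestronglyMeasurable)
    (integrable_const _)
    (fun n => Eventually.of_forall fun w => by
      rw [norm_pow, norm_div, Real.norm_natCast]
      refine pow_le_pow_left₀ (by positivity) ?_ 2
      rcases Nat.eq_zero_or_pos n with rfl | hn
      · simpa using hC0
      · rw [div_le_iff₀ (by exact_mod_cast hn)]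
        calc ‖∑ k ∈ range n, g (S^[k] w)‖ ≤ ∑ k ∈ range n, ‖g (S^[k] w)‖ := norm_sum_le _ _
          _ ≤ ∑ _k ∈ range n, C := Finset.sum_le_sum fun k _ => hC _
          _ = C * n := by rw [Finset.sum_const, card_range, nsmul_eq_mul, mul_comm])
    (Eventually.of_forall fun w => by
      have := (hpt w).pow 2
      simpa using this)
  simpa using h5

theorem tfm_inter (a M : ℝ) (hM : 0 < M) (ha : M < |a|) :
    1 / M ≤ ∫ t in (0 : ℝ)..(1 / M), (2 - 2 * Real.cos (2 * Real.pi * (a * t))) := by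
  have ha0 : a ≠ 0 := by
    intro h; rw [h, abs_zero] at ha; linarith
  have hpi := Real.pi_gt_three
  have hk : 2 * Real.pi * a ≠ 0 := by positivity
  have h1 : ∫ t in (0 : ℝ)..(1 / M), (2 - 2 * Real.cos (2 * Real.pi * (a * t))) =
      2 / M - 2 * ((2 * Real.pi * a)⁻¹ * Real.sin (2 * Real.pi * a * (1 / M))) := by
    rw [intervalIntegral.integral_sub (by simp) (by
      apply Continuous.intervalIntegrable; fun_prop)]
    rw [intervalIntegral.integral_const, intervalIntegral.integral_const_mul]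
    have : ∫ t in (0 : ℝ)..(1 / M), Real.cos (2 * Real.pi * (a * t)) =
        (2 * Real.pi * a)⁻¹ * Real.sin (2 * Real.pi * a * (1 / M)) := by
      have h0 : ∀ t : ℝ, 2 * Real.pi * (a * t) = 2 * Real.pi * a * t := fun t => by ring
      simp_rw [h0]
      rw [intervalIntegral.integral_comp_mul_left (fun y => Real.cos y) hk, integral_cos]
      simp
    rw [this]
    simp only [smul_eq_mul]; ring
  rw [h1]
  have h2 : |(2 * Real.pi * a)⁻¹ * Real.sin (2 * Real.pi * a * (1 / M))| ≤ 1 / (2 * M) := by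
    rw [abs_mul, abs_inv]
    have h3 : |2 * Real.pi * a| = 2 * Real.pi * |a| := by
      rw [abs_mul, abs_of_pos (by positivity)]
    rw [h3]
    have h4 : (2 * Real.pi * |a|)⁻¹ ≤ 1 / (2 * M) := by
      rw [inv_eq_one_div]
      apply one_div_le_one_div_of_le (by positivity)
      nlinarith
    calc (2 * Real.pi * |a|)⁻¹ * |Real.sin (2 * Real.pi * a * (1 / M))|
        ≤ (2 * Real.pi * |a|)⁻¹ * 1 := by
          apply mul_le_mul_of_nonneg_left (Real.abs_sin_le_one _) (by positivity)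
      _ ≤ 1 / (2 * M) := by rw [mul_one]; exact h4
  have h5 := (abs_le.mp h2).2
  have h6 : 2 * ((2 * Real.pi * a)⁻¹ * Real.sin (2 * Real.pi * a * (1 / M))) ≤ 1 / M := by
    calc 2 * ((2 * Real.pi * a)⁻¹ * Real.sin (2 * Real.pi * a * (1 / M)))
        ≤ 2 * (1 / (2 * M)) := by linarith
      _ = 1 / M := by field_simp
  have h7 : (2 : ℝ) / M = 1 / M + 1 / M := by ring
  rw [h7]; linarith

/-- the inequality of Bessel for the differences -/
theorem tfm_bessel (hF : ST_FPV) {r : ℕ} (F : T r → ℂ) (hc : Continuous F)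
    (hF1 : ∀ w, ‖F w‖ ≤ 1) (j : Fin r) (t u : ℝ) (R : T r → ℝ) (hR : Continuous R)
    (h : ∀ w, F (w + sg j t) = F w * tfm_e (u * t + R w)) (B : Finset (Fin r → ℤ)) :
    ∑ Y ∈ B, (2 - 2 * Real.cos (2 * Real.pi * (((Y j : ℝ) - u) * t))) * ‖fc F Y‖ ^ 2 ≤
      (2 * Real.pi) ^ 2 * ∫ w, R w ^ 2 ∂(mm r) := by
  have hint : ∀ f : T r → ℂ, Continuous f → Integrable f (mm r) := fun f hf =>
    hf.integrable_of_hasCompactSupport (HasCompactSupport.of_compactSpace _)
  set H : T r → ℂ := fun w => F (w + sg j t) * tfm_e (-(u * t)) - F w with hH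
  have hHc : Continuous H := by rw [hH]; fun_prop
  have h1 : ∀ Y, fc H Y = (tfm_e (((Y j : ℝ) - u) * t) - 1) * fc F Y := by
    intro Y
    have h2 : fc H Y = tfm_e (-(u * t)) * fc (fun w => F (w + sg j t)) Y - fc F Y := by
      unfold fc
      rw [← integral_const_mul, ← integral_sub (hint _ (by fun_prop)) (hint _ (by fun_prop))]
      congr 1
      ext w
      rw [hH]
      ring
    rw [h2, tlr_shift, tfm_single]
    have h3 : tfm_e (((Y j : ℝ) - u) * t) = tfm_e (-(u * t)) * tfm_e (Y j * t) := by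
      rw [← tfm_e_add]
      congr 1
      ring
    rw [h3]
    ring
  have h2 := hF r H hHc
  have h3 : ∑ Y ∈ B, ‖fc H Y‖ ^ 2 ≤ ∫ w, ‖H w‖ ^ 2 ∂(mm r) :=
    sum_le_hasSum B (fun X _ => by positivity) h2
  have h4 : ∫ w, ‖H w‖ ^ 2 ∂(mm r) ≤ ∫ w, (2 * Real.pi) ^ 2 * R w ^ 2 ∂(mm r) := by
    refine integral_mono ?_ ?_ ?_
    · have : Continuous fun w => ‖H w‖ ^ 2 := by fun_prop
      exact this.integrable_of_hasCompactSupport (HasCompactSupport.of_compactSpace _)
    · have : Continuous fun w => (2 * Real.pi) ^ 2 * R w ^ 2 := by fun_prop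
      exact this.integrable_of_hasCompactSupport (HasCompactSupport.of_compactSpace _)
    · intro w
      have e : H w = F w * (tfm_e (R w) - 1) := by
        rw [hH]
        simp only
        rw [h w, tfm_e_add]
        have := tfm_e_neg (u * t)
        linear_combination F w * tfm_e (R w) * this
      simp only
      rw [e, norm_mul, mul_pow, ← mul_pow]
      have h5 := tfm_e_sub (R w)
      have h6 : ‖F w‖ * ‖tfm_e (R w) - 1‖ ≤ 2 * Real.pi * |R w| := by
        calc ‖F w‖ * ‖tfm_e (R w) - 1‖ ≤ 1 * ‖tfm_e (R w) - 1‖ :=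
              mul_le_mul_of_nonneg_right (hF1 w) (norm_nonneg _)
          _ ≤ _ := by rw [one_mul]; exact h5
      calc (‖F w‖ * ‖tfm_e (R w) - 1‖) ^ 2 ≤ (2 * Real.pi * |R w|) ^ 2 :=
            pow_le_pow_left₀ (by positivity) h6 2
        _ = (2 * Real.pi) ^ 2 * R w ^ 2 := by rw [mul_pow, sq_abs]
  rw [integral_const_mul] at h4
  refine le_trans (le_of_eq ?_) (h3.trans h4)
  refine Finset.sum_congr rfl fun Y _ => ?_
  rw [h1, norm_mul, mul_pow, tfm_e_sq]

theorem st_TFM (h1 : ST_TEL) (h2 : ST_TFD) (h3 : ST_FPV) : ST_TFM := by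
  intro r lev D ψ S hT ℓ hO X j lam ε hX hj hlam hε
  obtain ⟨hSc, hψc⟩ := tfm_cont hT
  set Ψ : T r → ℝ := fun x => ∑ i, (X i : ℝ) * ψ i x with hΨ
  have hΨc : Continuous Ψ := by
    rw [hΨ]
    exact continuous_finsetSum _ fun i _ => continuous_const.mul (hψc i)
  obtain ⟨g, hg, hgd⟩ := tfm_der hT X j
  have hg0 : ∫ x, g x ∂(mm r) = 0 := tfm_int0 hΨc hg j hgd
  have hgl : ∀ x y : T r, (∀ i, lev i ≤ ℓ → x i = y i) → g x = g y := by
    intro x y hxy
    have hΨl : ∀ x y : T r, (∀ i, lev i ≤ ℓ → x i = y i) → Ψ x = Ψ y := by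
      intro x y hxy
      rw [hΨ]
      refine Finset.sum_congr rfl fun i _ => ?_
      by_cases hz : X i = 0
      · rw [hz]; simp
      · rw [hT.2.2.1 i x y fun j' hj' => hxy j' (by have := hX i hz; omega)]
    by_contra hne
    have hpos : 0 < |g x - g y| := abs_pos.2 (sub_ne_zero.2 hne)
    obtain ⟨δ, hδ, hd⟩ := hgd (|g x - g y| / 4) (by positivity)
    have a1 := hd x δ (by rw [abs_of_pos hδ])
    have a2 := hd y δ (by rw [abs_of_pos hδ])
    have a3 : Ψ (x + sg j δ) = Ψ (y + sg j δ) := hΨl _ _ fun i hi => by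
      rw [Pi.add_apply, Pi.add_apply, hxy i hi]
    have a4 : Ψ x = Ψ y := hΨl _ _ hxy
    change |Ψ (x + sg j δ) - Ψ x - δ * g x| ≤ _ at a1
    change |Ψ (y + sg j δ) - Ψ y - δ * g y| ≤ _ at a2
    rw [a3, a4] at a1
    have a5 : |δ * (g x - g y)| ≤ |g x - g y| / 4 * |δ| + |g x - g y| / 4 * |δ| := by
      have e : δ * (g x - g y) = (Ψ (y + sg j δ) - Ψ y - δ * g y) -
          (Ψ (y + sg j δ) - Ψ y - δ * g x) := by ring
      rw [e]
      exact (abs_sub _ _).trans (add_le_add a2 a1)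
    rw [abs_mul, abs_of_pos hδ] at a5
    nlinarith
  have hG : Tendsto (fun n : ℕ => ∫ w, ((∑ k ∈ range n, g (S^[k] w)) / n) ^ 2 ∂(mm r)) atTop
      (𝓝 0) := by
    refine tfm_avg hSc hg fun x => ?_
    have b1 := (h1 r lev D ψ S hT ℓ hO).2 1 (fun x => ((g x : ℝ) : ℂ)) le_rfl
      (Complex.continuous_ofReal.comp hg) (fun x y hxy => by
        show ((g x : ℝ) : ℂ) = ((g y : ℝ) : ℂ)
        rw [hgl x y hxy]) x
    have b2 : ∫ y, ((g y : ℝ) : ℂ) ∂(mm r) = 0 := by
      have b3 : ∫ y, ((g y : ℝ) : ℂ) ∂(mm r) = ((∫ y, g y ∂(mm r) : ℝ) : ℂ) := integral_ofReal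
      rw [b3, hg0]; simp
    rw [b2] at b1
    simpa only [one_mul] using b1
  set κ : ℝ := ε * lam ^ 2 / (16 * Real.pi ^ 2) with hκ
  have hpi := Real.pi_pos
  have hκ0 : 0 < κ := by rw [hκ]; positivity
  obtain ⟨δ, hδ, hd⟩ := hgd (Real.sqrt κ) (Real.sqrt_pos.2 hκ0)
  have hev : ∀ᶠ n : ℕ in atTop, ∫ w, ((∑ k ∈ range n, g (S^[k] w)) / n) ^ 2 ∂(mm r) ≤ κ := by
    have := hG.eventually (gt_mem_nhds hκ0)
    filter_upwards [this] with n hn using hn.le
  obtain ⟨n₁, hn₁⟩ := eventually_atTop.1 hev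
  obtain ⟨n₂, hn₂⟩ := exists_nat_ge (1 / (lam * δ))
  refine ⟨max n₁ (max n₂ 1), fun n hn B hB => ?_⟩
  have hnn₁ : n₁ ≤ n := (le_max_left _ _).trans hn
  have hnn₂ : n₂ ≤ n := (le_max_left _ _).trans ((le_max_right _ _).trans hn)
  have hn1 : 1 ≤ n := (le_max_right _ _).trans ((le_max_right _ _).trans hn)
  have hn0 : (0 : ℝ) < n := by exact_mod_cast hn1
  have hM0 : 0 < lam * n := by positivity
  have hMδ : 1 / (lam * n) ≤ δ := by
    have c1 : 1 / (lam * δ) ≤ n := hn₂.trans (by exact_mod_cast hnn₂)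
    rw [div_le_iff₀ (by positivity)] at c1 ⊢
    nlinarith
  obtain ⟨hFc, -⟩ := h2 r lev D ψ S hT ℓ X hX n
  have hF1 : ∀ w, ‖Fn S X n w‖ ≤ 1 := by
    intro w
    unfold Fn
    rw [norm_mul, RCLike.norm_conj, tfm_circ, tfm_circ, Circle.norm_coe, Circle.norm_coe, one_mul]
  set u : ℝ := (n : ℝ) * (Matrix.vecMul X D j : ℤ) with hu
  have hbd : ∀ t ∈ Set.Icc (0 : ℝ) (1 / (lam * n)),
      ∑ Y ∈ B, (2 - 2 * Real.cos (2 * Real.pi * (((Y j : ℝ) - u) * t))) *
        ‖fc (Fn S X n) Y‖ ^ 2 ≤ ε := by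
    intro t ht
    have hRc : Continuous fun w => tfm_R S Ψ (sg j t) n w := by
      unfold tfm_R
      refine continuous_finsetSum _ fun k _ => ?_
      have hk : Continuous (S^[k]) := hSc.iterate k
      exact (hΨc.comp (hk.add continuous_const)).sub (hΨc.comp hk)
    have d1 := tfm_bessel h3 (Fn S X n) hFc hF1 j t u (tfm_R S Ψ (sg j t) n) hRc
      (fun w => tfm_Fn hT hj t X hX w n) B
    refine d1.trans ?_
    have habs : |t| = t := abs_of_nonneg ht.1
    have d2 : ∀ w, tfm_R S Ψ (sg j t) n w ^ 2 ≤ 2 * t ^ 2 * (n : ℝ) ^ 2 *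
        (((∑ k ∈ range n, g (S^[k] w)) / n) ^ 2 + κ) := by
      intro w
      have d3 : |tfm_R S Ψ (sg j t) n w - t * ∑ k ∈ range n, g (S^[k] w)| ≤
          n * (Real.sqrt κ * t) := by
        unfold tfm_R
        rw [Finset.mul_sum, ← Finset.sum_sub_distrib]
        refine (Finset.abs_sum_le_sum_abs _ _).trans ?_
        calc ∑ k ∈ range n, |Ψ (S^[k] w + sg j t) - Ψ (S^[k] w) - t * g (S^[k] w)|
            ≤ ∑ _k ∈ range n, Real.sqrt κ * t := by
              refine Finset.sum_le_sum fun k _ => ?_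
              have := hd (S^[k] w) t (by rw [habs]; exact ht.2.trans hMδ)
              rw [habs] at this
              exact this
          _ = n * (Real.sqrt κ * t) := by rw [Finset.sum_const, card_range, nsmul_eq_mul]
      have d4 : t * ∑ k ∈ range n, g (S^[k] w) = t * n * ((∑ k ∈ range n, g (S^[k] w)) / n) := by
        field_simp
      rw [d4] at d3
      set a := tfm_R S Ψ (sg j t) n w
      set b := t * n * ((∑ k ∈ range n, g (S^[k] w)) / n) with hb
      have d5 : a ^ 2 ≤ 2 * b ^ 2 + 2 * (a - b) ^ 2 := by nlinarith [sq_nonneg (a - 2 * b)]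
      have d6 : (a - b) ^ 2 ≤ (n * (Real.sqrt κ * t)) ^ 2 := by
        rw [← sq_abs (a - b)]
        exact pow_le_pow_left₀ (abs_nonneg _) d3 2
      have d7 : (n * (Real.sqrt κ * t)) ^ 2 = (n : ℝ) ^ 2 * κ * t ^ 2 := by
        rw [mul_pow, mul_pow, Real.sq_sqrt hκ0.le]; ring
      have d8 : b ^ 2 = t ^ 2 * (n : ℝ) ^ 2 * ((∑ k ∈ range n, g (S^[k] w)) / n) ^ 2 := by
        rw [hb]; ring
      rw [d7] at d6
      rw [d8] at d5
      nlinarith
    have d9 : ∫ w, tfm_R S Ψ (sg j t) n w ^ 2 ∂(mm r) ≤ 2 * t ^ 2 * (n : ℝ) ^ 2 *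
        ((∫ w, ((∑ k ∈ range n, g (S^[k] w)) / n) ^ 2 ∂(mm r)) + κ) := by
      have hgc : Continuous fun w => ((∑ k ∈ range n, g (S^[k] w)) / n) ^ 2 := by
        have h6 : Continuous fun w : T r => ∑ k ∈ range n, g (S^[k] w) :=
          continuous_finsetSum _ fun k _ => hg.comp (hSc.iterate k)
        exact (h6.div_const _).pow 2
      have hgi : Integrable (fun w => ((∑ k ∈ range n, g (S^[k] w)) / n) ^ 2) (mm r) :=
        hgc.integrable_of_hasCompactSupport (HasCompactSupport.of_compactSpace _)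
      have e1 : ∫ w, tfm_R S Ψ (sg j t) n w ^ 2 ∂(mm r) ≤ ∫ w, 2 * t ^ 2 * (n : ℝ) ^ 2 *
        (((∑ k ∈ range n, g (S^[k] w)) / n) ^ 2 + κ) ∂(mm r) := by
        refine integral_mono ?_ ?_ d2
        · exact (hRc.pow 2).integrable_of_hasCompactSupport (HasCompactSupport.of_compactSpace _)
        · exact (hgi.add (integrable_const _)).const_mul _
      refine e1.trans (le_of_eq ?_)
      rw [integral_const_mul, integral_add hgi (integrable_const _)]
      simp
    have hIn := hn₁ n hnn₁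
    have htn : t * (lam * n) ≤ 1 := by
      have := mul_le_mul_of_nonneg_right ht.2 hM0.le
      rwa [one_div, inv_mul_cancel₀ hM0.ne'] at this
    have ht2 : t ^ 2 * (n : ℝ) ^ 2 ≤ 1 / lam ^ 2 := by
      rw [le_div_iff₀ (by positivity)]
      have : t ^ 2 * (n : ℝ) ^ 2 * lam ^ 2 = (t * (lam * n)) ^ 2 := by ring
      rw [this]
      exact pow_le_one₀ (mul_nonneg ht.1 hM0.le) htn
    calc (2 * Real.pi) ^ 2 * ∫ w, tfm_R S Ψ (sg j t) n w ^ 2 ∂(mm r)
        ≤ (2 * Real.pi) ^ 2 * (2 * t ^ 2 * (n : ℝ) ^ 2 * (κ + κ)) := by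
          refine mul_le_mul_of_nonneg_left (d9.trans ?_) (by positivity)
          refine mul_le_mul_of_nonneg_left (by linarith) (by positivity)
      _ = (2 * Real.pi) ^ 2 * (4 * κ) * (t ^ 2 * (n : ℝ) ^ 2) := by ring
      _ ≤ (2 * Real.pi) ^ 2 * (4 * κ) * (1 / lam ^ 2) :=
          mul_le_mul_of_nonneg_left ht2 (by positivity)
      _ = ε := by
          rw [hκ]
          field_simp
          ring
  have h5 : ∫ t in (0 : ℝ)..(1 / (lam * n)),
      (∑ Y ∈ B, (2 - 2 * Real.cos (2 * Real.pi * (((Y j : ℝ) - u) * t))) *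
        ‖fc (Fn S X n) Y‖ ^ 2) ≤ ∫ _t in (0 : ℝ)..(1 / (lam * n)), ε := by
    refine intervalIntegral.integral_mono_on (by positivity) ?_ (by simp) hbd
    apply Continuous.intervalIntegrable
    fun_prop
  rw [intervalIntegral.integral_finsetSum (fun X _ => by
    apply Continuous.intervalIntegrable; fun_prop)] at h5
  have h6 : ∑ Y ∈ B, (1 / (lam * n)) * ‖fc (Fn S X n) Y‖ ^ 2 ≤
      ∑ Y ∈ B, ∫ t in (0 : ℝ)..(1 / (lam * n)),
      (2 - 2 * Real.cos (2 * Real.pi * (((Y j : ℝ) - u) * t))) * ‖fc (Fn S X n) Y‖ ^ 2 := by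
    refine Finset.sum_le_sum fun Y hY => ?_
    rw [intervalIntegral.integral_mul_const]
    refine mul_le_mul_of_nonneg_right ?_ (by positivity)
    exact tfm_inter _ _ hM0 (hB Y hY)
  rw [← Finset.mul_sum] at h6
  have h7 : ∫ _t in (0 : ℝ)..(1 / (lam * n)), ε = 1 / (lam * n) * ε := by
    rw [intervalIntegral.integral_const]; simp
  rw [h7] at h5
  exact le_of_mul_le_mul_left (h6.trans h5) (by positivity)

end Pool.Agent.Helper16.CZ
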